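import Pool.Agent.H63.SW.Final
import Pool.Agent.H20.SW.Main

/-!
# The prime number theorem with an arbitrary log-power saving, and Siegel-Walfisz for small moduli

helper20: bounds of all derivatives of `-ζ'/ζ - ζ`, `-L'/L`; helper63: deduction; assembly here.
-/

set_option autoImplicit false

namespace Pool.Agent.SW

open ArithmeticFunction LSeries

/-- **PNT with log-power saving** -/
theorem theta_pnt (A : ℕ) : ∃ C : ℝ, ∀ x : ℝ, 2 ≤ x →
    |Chebyshev.theta x - x| ≤ C * x / Real.log x ^ A := by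
  refine theta_pnt_of (fun k => 12 * (k + 1)) (fun k => ?_) A
  obtain ⟨C, hC⟩ := zeta_F k
  refine ⟨C, fun s h1 h2 => ?_⟩
  have e : lk (fun n : ℕ => ((vonMangoldt n : ℝ) : ℂ) - 1) k =
      (fun n : ℕ => (((vonMangoldt n - 1) * Real.log n ^ k : ℝ) : ℂ)) := by
    funext n
    simp only [lk]
    push_cast
    ring
  rw [e]
  exact hC s h1 h2

/-- **Siegel-Walfisz for small moduli** -/
theorem theta_char (d0 : ℝ) (h : 0 < d0) (A : ℕ) : ∃ C : ℝ, ∀ x : ℝ, 2 ≤ x → ∀ d : ℕ, 1 ≤ d →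
    (d : ℝ) ≤ Real.log x ^ (1 - d0) → ∀ χ : DirichletCharacter ℂ d, χ ≠ 1 →
    ‖∑ p ∈ Finset.Ioc 0 ⌊x⌋₊ with p.Prime, χ p * ((Real.log p : ℝ) : ℂ)‖ ≤
      C * x / Real.log x ^ A := by
  refine theta_char_of 12 (fun k => ?_) d0 h A
  obtain ⟨C, hC⟩ := char_F k
  refine ⟨C, fun d hd χ hχ s h1 h2 => ?_⟩
  have : NeZero d := ⟨by omega⟩
  have e : lk (fun n : ℕ => χ n * ((vonMangoldt n : ℝ) : ℂ)) k =
      (fun n : ℕ => χ n * ((vonMangoldt n * Real.log n ^ k : ℝ) : ℂ)) := by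
    funext n
    simp only [lk]
    push_cast
    ring
  rw [e]
  exact hC d χ hχ s h1 h2

end Pool.Agent.SW
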