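import Pool.Agent.H63.SW.Core

/-!
# The prime number theorem with an arbitrary log-power saving, and Siegel-Walfisz for small moduli,
from bounds of the derivatives of the logarithmic derivatives
-/

open Complex LSeries Filter Topology ArithmeticFunction

namespace Pool.Agent.SW

/-- extension of a bound to all `x ≥ 2` -/
lemma extend {f : ℝ → ℝ} (A : ℕ) {B C x : ℝ} (hB0 : 0 ≤ B) (hC0 : 0 ≤ C)
    (hB : x < 16 → f x ≤ B) (hC : 16 ≤ x → f x ≤ C * x / Real.log x ^ A) (hx : 2 ≤ x) :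
    f x ≤ (C + B * Real.log 16 ^ A) * x / Real.log x ^ A := by
  have hl : 0 < Real.log x := Real.log_pos (by linarith)
  have hlA : 0 < Real.log x ^ A := by positivity
  rcases lt_or_ge x 16 with h | h
  · refine (hB h).trans ?_
    rw [le_div_iff₀ hlA]
    have h1 : Real.log x ^ A ≤ Real.log 16 ^ A :=
      pow_le_pow_left₀ hl.le (Real.log_le_log (by linarith) h.le) A
    have h16 : 0 ≤ Real.log 16 ^ A := hlA.le.trans h1
    calc B * Real.log x ^ A ≤ B * Real.log 16 ^ A := mul_le_mul_of_nonneg_left h1 hB0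
      _ = (B * Real.log 16 ^ A) * 1 := (mul_one _).symm
      _ ≤ (B * Real.log 16 ^ A) * x := mul_le_mul_of_nonneg_left (by linarith) (by positivity)
      _ ≤ (C + B * Real.log 16 ^ A) * x := by
          apply mul_le_mul_of_nonneg_right _ (by linarith)
          linarith
  · refine (hC h).trans ?_
    have h16 : 0 ≤ Real.log 16 ^ A := by
      have : 0 ≤ Real.log 16 := Real.log_nonneg (by norm_num)
      positivity
    gcongr
    have : 0 ≤ B * Real.log 16 ^ A := by positivity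
    linarith

/-- `√x log x` is negligible -/
lemma sqrt_log_le (A : ℕ) : ∃ C : ℝ, 0 < C ∧ ∀ x : ℝ, 16 ≤ x →
    Real.sqrt x * Real.log x ≤ C * x / Real.log x ^ A := by
  obtain ⟨C, hC, h⟩ := log_pow_le (A + 1)
  refine ⟨C, hC, fun x hx => ?_⟩
  have hl : 0 < Real.log x := Real.log_pos (by linarith)
  rw [le_div_iff₀ (by positivity)]
  have h1 := h x (by linarith)
  rw [← Real.sqrt_eq_rpow] at h1
  calc Real.sqrt x * Real.log x * Real.log x ^ A = Real.sqrt x * Real.log x ^ (A + 1) := by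
        rw [pow_succ]; ring
    _ ≤ Real.sqrt x * (C * Real.sqrt x) := mul_le_mul_of_nonneg_left h1 (Real.sqrt_nonneg x)
    _ = C * (Real.sqrt x * Real.sqrt x) := by ring
    _ = C * x := by rw [Real.mul_self_sqrt (by linarith)]

lemma log16 {x : ℝ} (hx : 16 ≤ x) : 1 ≤ Real.log x := by
  rw [Real.le_log_iff_exp_le (by linarith)]
  linarith [Real.exp_one_lt_d9]

/-- **PNT with log-power saving** from the bounds of derivatives -/
theorem theta_pnt_of (m : ℕ → ℕ) (hz : ∀ k : ℕ, ∃ C : ℝ, ∀ s : ℂ, 1 < s.re → s.re ≤ 2 →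
    ‖LSeries (lk (fun n : ℕ => ((vonMangoldt n : ℝ) : ℂ) - 1) k) s‖ ≤
      C * Real.log (|s.im| + 3) ^ m k) (A : ℕ) :
    ∃ C : ℝ, ∀ x : ℝ, 2 ≤ x → |Chebyshev.theta x - x| ≤ C * x / Real.log x ^ A := by
  obtain ⟨C0, hC0⟩ := hz (2 * A + 1)
  obtain ⟨C1, hC1, hcore⟩ := core (2 * A + 1) (m (2 * A + 1)) 1 |C0| one_pos (abs_nonneg _)
  obtain ⟨C2, hC2, hsl⟩ := sqrt_log_le A
  set a : ℕ → ℂ := fun n : ℕ => ((vonMangoldt n : ℝ) : ℂ) - 1 with ha
  have hab : ∀ n : ℕ, 1 ≤ n → ‖a n‖ ≤ 1 + Real.log n := by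
    intro n hn
    simp only [ha]
    refine (norm_sub_le _ _).trans ?_
    rw [Complex.norm_real, Real.norm_of_nonneg vonMangoldt_nonneg, norm_one]
    have := vonMangoldt_le_log (n := n)
    linarith
  refine ⟨(C1 + 3 * C2) + (Real.log 4 * 16 + 16) * Real.log 16 ^ A, fun x hx => ?_⟩
  have hl4 : 0 ≤ Real.log 4 := Real.log_nonneg (by norm_num)
  apply extend A (f := fun x => |Chebyshev.theta x - x|) (by positivity) (by positivity) _ _ hx
  · intro hx16
    have h1 := Chebyshev.theta_le_log4_mul_x (show 0 ≤ x by linarith)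
    have h2 := Chebyshev.theta_nonneg x
    have h3 : Real.log 4 * x ≤ Real.log 4 * 16 := mul_le_mul_of_nonneg_left hx16.le hl4
    rw [abs_le]
    constructor
    · have : 0 ≤ Real.log 4 * 16 := by positivity
      linarith
    · linarith
  · intro hx16
    have hL := log16 hx16
    have hx0 : 0 < x := by linarith
    have h1 := hcore a hab x hx16 (by
      intro s hs1 hs2
      refine (hC0 s hs1 hs2).trans ?_
      have e : (1 - (1 : ℝ)) * (((2 * A + 1 : ℕ) : ℝ) + 1) = 0 := by ring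
      rw [e, Real.rpow_zero, mul_one]
      apply mul_le_mul_of_nonneg_right (le_abs_self _)
      apply pow_nonneg
      apply Real.log_nonneg
      have := abs_nonneg s.im
      linarith)
    have e : (1 : ℝ) - 1 * (((2 * A + 1 : ℕ) : ℝ) + 1) / 2 = -(A : ℝ) := by
      push_cast
      ring
    rw [e, Real.rpow_neg (by linarith), Real.rpow_natCast, ← div_eq_mul_inv] at h1
    have h2 : PS a ⌊x⌋₊ = ((Chebyshev.psi x - ⌊x⌋₊ : ℝ) : ℂ) := by
      unfold PS
      simp only [ha]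
      rw [Finset.sum_sub_distrib, Finset.sum_const, Nat.card_Icc, Chebyshev.psi]
      push_cast
      rw [show Finset.Icc 1 ⌊x⌋₊ = Finset.Ioc 0 ⌊x⌋₊ by
        ext n; simp [Finset.mem_Icc, Finset.mem_Ioc]; omega]
      simp
    rw [h2, Complex.norm_real, Real.norm_eq_abs] at h1
    have h3 := Chebyshev.psi_sub_theta_le (show 1 ≤ x by linarith)
    have h4 := Chebyshev.theta_le_psi x
    have h5 := Nat.floor_le hx0.le
    have h6 := Nat.lt_floor_add_one x
    have h7 := hsl x hx16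
    have h8 : 1 ≤ Real.sqrt x * Real.log x := by
      have : 1 ≤ Real.sqrt x := by
        rw [Real.one_le_sqrt]; linarith
      nlinarith
    have h9 : (C1 + 3 * C2) * x / Real.log x ^ A = C1 * x / Real.log x ^ A +
        3 * (C2 * x / Real.log x ^ A) := by ring
    rw [h9]
    rw [abs_le] at h1 ⊢
    constructor <;> linarith [h1.1, h1.2]

/-- powers of `1 + log` are dominated by any positive power -/
lemma one_add_log_pow_le (E : ℕ) {ε : ℝ} (hε : 0 < ε) : ∃ c : ℝ, 0 < c ∧ ∀ u : ℝ, 1 ≤ u →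
    (1 + Real.log u) ^ E ≤ c * u ^ ε := by
  refine ⟨(1 + (E + 1) / ε) ^ E, by positivity, fun u hu => ?_⟩
  have hε' : 0 < ε / (E + 1) := by positivity
  have h1 := Real.log_le_rpow_div (by linarith : (0 : ℝ) ≤ u) hε'
  have h0 : 0 ≤ Real.log u := Real.log_nonneg hu
  have h2 : 1 ≤ u ^ (ε / (E + 1)) := Real.one_le_rpow hu hε'.le
  have h3 : 1 + Real.log u ≤ (1 + (E + 1) / ε) * u ^ (ε / ((E : ℝ) + 1)) := by
    have : u ^ (ε / ((E : ℝ) + 1)) / (ε / (E + 1)) = (E + 1) / ε * u ^ (ε / ((E : ℝ) + 1)) := by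
      field_simp
    rw [this] at h1
    linarith
  calc (1 + Real.log u) ^ E ≤ ((1 + (E + 1) / ε) * u ^ (ε / ((E : ℝ) + 1))) ^ E :=
        pow_le_pow_left₀ (by linarith) h3 E
    _ = (1 + (E + 1) / ε) ^ E * (u ^ (ε / ((E : ℝ) + 1))) ^ E := mul_pow _ _ _
    _ ≤ (1 + (E + 1) / ε) ^ E * u ^ ε := by
        apply mul_le_mul_of_nonneg_left _ (by positivity)
        rw [← Real.rpow_natCast, ← Real.rpow_mul (by linarith)]
        apply Real.rpow_le_rpow_of_exponent_le hu
        rw [div_mul_eq_mul_div, div_le_iff₀ (by positivity)]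
        nlinarith

/-- **Siegel-Walfisz for small moduli** from the bounds of derivatives -/
theorem theta_char_of (E : ℕ) (hz : ∀ k : ℕ, ∃ C : ℝ, ∀ d : ℕ, 1 ≤ d →
    ∀ χ : DirichletCharacter ℂ d, χ ≠ 1 → ∀ s : ℂ, 1 < s.re → s.re ≤ 2 →
    ‖LSeries (lk (fun n : ℕ => χ n * ((vonMangoldt n : ℝ) : ℂ)) k) s‖ ≤
      C * ((d : ℝ) * Real.log (d * (|s.im| + 3)) ^ E) ^ (k + 1))
    (d0 : ℝ) (h : 0 < d0) (A : ℕ) : ∃ C : ℝ, ∀ x : ℝ, 2 ≤ x → ∀ d : ℕ, 1 ≤ d →
    (d : ℝ) ≤ Real.log x ^ (1 - d0) → ∀ χ : DirichletCharacter ℂ d, χ ≠ 1 →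
    ‖∑ p ∈ Finset.Ioc 0 ⌊x⌋₊ with p.Prime, χ p * ((Real.log p : ℝ) : ℂ)‖ ≤
      C * x / Real.log x ^ A := by
  set δ : ℝ := d0 / 2 with hδ
  have hδ0 : 0 < δ := by positivity
  set k : ℕ := ⌈2 * (A + 1) / δ⌉₊ with hk
  obtain ⟨C0, hC0⟩ := hz k
  obtain ⟨c, hc, hlog⟩ := one_add_log_pow_le E hδ0
  obtain ⟨C1, hC1, hcore⟩ := core k (E * (k + 1)) δ (|C0| * c ^ (k + 1)) hδ0 (by positivity)
  obtain ⟨C2, hC2, hsl⟩ := sqrt_log_le A
  refine ⟨(C1 + 2 * C2) + (Real.log 4 * 16) * Real.log 16 ^ A, fun x hx d hd hdx χ hχ => ?_⟩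
  have hl4 : 0 ≤ Real.log 4 := Real.log_nonneg (by norm_num)
  have hx0 : 0 < x := by linarith
  apply extend A (f := fun x => ‖∑ p ∈ Finset.Ioc 0 ⌊x⌋₊ with p.Prime,
    χ p * ((Real.log p : ℝ) : ℂ)‖) (by positivity) (by positivity) _ _ hx
  · intro hx16
    have h1 := Chebyshev.theta_le_log4_mul_x (show 0 ≤ x by linarith)
    have h3 : Real.log 4 * x ≤ Real.log 4 * 16 := mul_le_mul_of_nonneg_left hx16.le hl4
    refine le_trans ?_ (h1.trans h3)
    rw [Chebyshev.theta]
    apply norm_sum_le_of_le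
    intro p hp
    rw [Finset.mem_filter, Finset.mem_Ioc] at hp
    rw [norm_mul, Complex.norm_real, Real.norm_of_nonneg (Real.log_natCast_nonneg p)]
    have := DirichletCharacter.norm_le_one χ (p : ZMod d)
    have := Real.log_natCast_nonneg p
    nlinarith
  · intro hx16
    have hL := log16 hx16
    set L := Real.log x with hLdef
    have hL0 : 0 < L := by linarith
    set a : ℕ → ℂ := fun n : ℕ => χ n * ((vonMangoldt n : ℝ) : ℂ) with ha
    have hab' : ∀ n : ℕ, ‖a n‖ ≤ vonMangoldt n := by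
      intro n
      simp only [ha]
      rw [norm_mul, Complex.norm_real, Real.norm_of_nonneg vonMangoldt_nonneg]
      have h1 := DirichletCharacter.norm_le_one χ (n : ZMod d)
      have h2 : 0 ≤ vonMangoldt n := vonMangoldt_nonneg
      nlinarith
    have hab : ∀ n : ℕ, 1 ≤ n → ‖a n‖ ≤ 1 + Real.log n := by
      intro n hn
      have := vonMangoldt_le_log (n := n)
      linarith [hab' n]
    have hd1 : (1 : ℝ) ≤ d := by exact_mod_cast hd
    have hdL : (d : ℝ) ≤ L := by
      refine hdx.trans ?_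
      calc L ^ (1 - d0) ≤ L ^ (1 : ℝ) := Real.rpow_le_rpow_of_exponent_le hL (by linarith)
        _ = L := Real.rpow_one L
    have hlogd : 0 ≤ Real.log d := Real.log_nonneg hd1
    have hD : (d : ℝ) * (1 + Real.log d) ^ E ≤ c * L ^ (1 - δ) := by
      have h1 : (1 + Real.log d) ^ E ≤ c * L ^ δ := by
        refine le_trans ?_ (hlog L hL)
        apply pow_le_pow_left₀ (by linarith)
        have := Real.log_le_log (by linarith) hdL
        linarith
      calc (d : ℝ) * (1 + Real.log d) ^ E ≤ L ^ (1 - d0) * (c * L ^ δ) :=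
            mul_le_mul hdx h1 (by positivity) (by positivity)
        _ = c * (L ^ (1 - d0) * L ^ δ) := by ring
        _ = c * L ^ (1 - δ) := by
            rw [← Real.rpow_add hL0]
            congr 2
            rw [hδ]
            ring
    have h1 := hcore a hab x hx16 (by
      intro s hs1 hs2
      refine (hC0 d hd χ hχ s hs1 hs2).trans ?_
      have hτ : 1 ≤ Real.log (|s.im| + 3) := by
        rw [Real.le_log_iff_exp_le (by positivity)]
        have := abs_nonneg s.im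
        linarith [Real.exp_one_lt_d9]
      have hlm : Real.log (d * (|s.im| + 3)) ≤ (1 + Real.log d) * Real.log (|s.im| + 3) := by
        rw [Real.log_mul (by positivity) (by positivity)]
        nlinarith
      have hlm0 : 0 ≤ Real.log (d * (|s.im| + 3)) := by
        apply Real.log_nonneg
        have := abs_nonneg s.im
        nlinarith
      have h2 : ((d : ℝ) * Real.log (d * (|s.im| + 3)) ^ E) ^ (k + 1) ≤
          (c * L ^ (1 - δ) * Real.log (|s.im| + 3) ^ E) ^ (k + 1) := by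
        apply pow_le_pow_left₀ (by positivity)
        calc (d : ℝ) * Real.log (d * (|s.im| + 3)) ^ E
            ≤ (d : ℝ) * ((1 + Real.log d) * Real.log (|s.im| + 3)) ^ E :=
              mul_le_mul_of_nonneg_left (pow_le_pow_left₀ hlm0 hlm E) (by positivity)
          _ = (d * (1 + Real.log d) ^ E) * Real.log (|s.im| + 3) ^ E := by rw [mul_pow]; ring
          _ ≤ _ := mul_le_mul_of_nonneg_right hD (by positivity)
      calc C0 * ((d : ℝ) * Real.log (d * (|s.im| + 3)) ^ E) ^ (k + 1)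
          ≤ |C0| * (c * L ^ (1 - δ) * Real.log (|s.im| + 3) ^ E) ^ (k + 1) :=
            mul_le_mul (le_abs_self _) h2 (by positivity) (abs_nonneg _)
        _ = |C0| * c ^ (k + 1) * L ^ ((1 - δ) * (k + 1)) *
            Real.log (|s.im| + 3) ^ (E * (k + 1)) := by
            rw [mul_pow, mul_pow, ← pow_mul, Real.rpow_mul hL0.le]
            have : (L ^ (1 - δ)) ^ (((k : ℝ)) + 1) = (L ^ (1 - δ)) ^ (k + 1) := by
              rw [← Real.rpow_natCast]
              push_cast
              rfl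
            rw [this]
            ring)
    have hexp : L ^ (1 - δ * (k + 1) / 2) ≤ (L ^ A)⁻¹ := by
      rw [← Real.rpow_natCast L A, ← Real.rpow_neg hL0.le]
      apply Real.rpow_le_rpow_of_exponent_le hL
      have h2 : 2 * (A + 1) / δ ≤ k := Nat.le_ceil _
      rw [div_le_iff₀ hδ0] at h2
      nlinarith
    have h2 : ‖PS a ⌊x⌋₊‖ ≤ C1 * x / L ^ A := by
      refine h1.trans ?_
      rw [div_eq_mul_inv]
      exact mul_le_mul_of_nonneg_left hexp (by positivity)
    have h3 := Chebyshev.psi_sub_theta_le (show 1 ≤ x by linarith)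
    have h7 := hsl x hx16
    have hIcc : Finset.Icc 1 ⌊x⌋₊ = Finset.Ioc 0 ⌊x⌋₊ := by
      ext n; simp [Finset.mem_Icc, Finset.mem_Ioc]; omega
    have h4 : ∑ p ∈ Finset.Ioc 0 ⌊x⌋₊ with p.Prime, χ p * ((Real.log p : ℝ) : ℂ) =
        PS a ⌊x⌋₊ - ∑ n ∈ Finset.Ioc 0 ⌊x⌋₊ with ¬ n.Prime, a n := by
      unfold PS
      rw [hIcc, ← Finset.sum_filter_add_sum_filter_not (Finset.Ioc 0 ⌊x⌋₊) (fun n => n.Prime) a,
        add_sub_cancel_right]
      apply Finset.sum_congr rfl
      intro p hp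
      rw [Finset.mem_filter] at hp
      simp only [ha]
      rw [vonMangoldt_apply_prime hp.2]
    have h5 : ‖∑ n ∈ Finset.Ioc 0 ⌊x⌋₊ with ¬ n.Prime, a n‖ ≤
        Chebyshev.psi x - Chebyshev.theta x := by
      rw [Chebyshev.psi_sub_theta_eq_sum_not_prime]
      exact norm_sum_le_of_le _ fun n _ => hab' n
    change ‖∑ p ∈ Finset.Ioc 0 ⌊x⌋₊ with p.Prime, χ p * ((Real.log p : ℝ) : ℂ)‖ ≤ _
    rw [h4]
    refine (norm_sub_le _ _).trans ?_
    have h9 : (C1 + 2 * C2) * x / L ^ A = C1 * x / L ^ A + 2 * (C2 * x / L ^ A) := by ring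
    rw [h9]
    linarith

end Pool.Agent.SW
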