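import Pool.Agent.H63.SW.Smooth

/-!
# From bounds of derivatives of the Dirichlet series to bounds of partial sums
-/

open Complex LSeries Filter Topology

namespace Pool.Agent.SW

/-- partial sums -/
noncomputable def PS (b : ℕ → ℂ) (N : ℕ) : ℂ := ∑ n ∈ Finset.Icc 1 N, b n

/-- smoothed sums -/
noncomputable def TS (b : ℕ → ℂ) (X : ℝ) : ℂ := ∑ n ∈ Finset.Icc 1 ⌊X⌋₊, b n * ((X - n : ℝ) : ℂ)

lemma PS_succ (b : ℕ → ℂ) (N : ℕ) : PS b (N + 1) = PS b N + b (N + 1) := by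
  unfold PS
  rw [Finset.sum_Icc_succ_top (by omega)]

lemma sum_Icc_split (b : ℕ → ℂ) {M N : ℕ} (h : M ≤ N) :
    ∑ n ∈ Finset.Icc 1 N, b n = ∑ n ∈ Finset.Icc 1 M, b n + ∑ n ∈ Finset.Ioc M N, b n := by
  have h1 : ∀ K : ℕ, Finset.Icc 1 K = Finset.Ioc 0 K := by
    intro K; ext n; simp [Finset.mem_Icc, Finset.mem_Ioc]; omega
  rw [h1, h1, Finset.sum_Ioc_consecutive _ (by omega) h]

/-- unsmoothing -/
lemma unsmooth {b : ℕ → ℂ} {K W X h : ℝ} (hX : 1 ≤ X) (h0 : 0 < h) (hh : h ≤ X) (hW : 0 ≤ W)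
    (hK : 0 ≤ K) (hb : ∀ n : ℕ, 1 ≤ n → (n : ℝ) ≤ 2 * X → ‖b n‖ ≤ W)
    (h1 : ‖TS b X‖ ≤ K * X ^ 2) (h2 : ‖TS b (X + h)‖ ≤ K * (X + h) ^ 2) :
    ‖PS b ⌊X⌋₊‖ ≤ 5 * K * X ^ 2 / h + (h + 1) * W := by
  have hfl : ⌊X⌋₊ ≤ ⌊X + h⌋₊ := Nat.floor_le_floor (by linarith)
  have e : (h : ℂ) * PS b ⌊X⌋₊ = TS b (X + h) - TS b X -
      ∑ n ∈ Finset.Ioc ⌊X⌋₊ ⌊X + h⌋₊, b n * ((X + h - n : ℝ) : ℂ) := by
    have : TS b (X + h) = ∑ n ∈ Finset.Icc 1 ⌊X⌋₊, b n * ((X + h - n : ℝ) : ℂ) +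
        ∑ n ∈ Finset.Ioc ⌊X⌋₊ ⌊X + h⌋₊, b n * ((X + h - n : ℝ) : ℂ) :=
      sum_Icc_split _ hfl
    rw [this]
    unfold PS TS
    rw [add_sub_right_comm, add_sub_cancel_right, ← Finset.sum_sub_distrib, Finset.mul_sum]
    apply Finset.sum_congr rfl
    intro n _
    push_cast
    ring
  have h3 : ‖∑ n ∈ Finset.Ioc ⌊X⌋₊ ⌊X + h⌋₊, b n * ((X + h - n : ℝ) : ℂ)‖ ≤ (h + 1) * (W * h) := by
    have h4 : ∀ n ∈ Finset.Ioc ⌊X⌋₊ ⌊X + h⌋₊, ‖b n * ((X + h - n : ℝ) : ℂ)‖ ≤ W * h := by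
      intro n hn
      rw [Finset.mem_Ioc] at hn
      have k1 : X < n := (Nat.floor_lt (by linarith)).mp hn.1
      have k2 : (n : ℝ) ≤ X + h := (Nat.le_floor_iff (by linarith)).mp hn.2
      rw [norm_mul, Complex.norm_real, Real.norm_of_nonneg (by linarith)]
      exact mul_le_mul (hb n (by omega) (by linarith)) (by linarith) (by linarith) hW
    refine (norm_sum_le_of_le _ h4).trans ?_
    rw [Finset.sum_const, Nat.card_Ioc, nsmul_eq_mul]
    apply mul_le_mul_of_nonneg_right _ (by positivity)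
    rw [Nat.cast_sub hfl]
    have k3 := Nat.floor_le (show (0 : ℝ) ≤ X + h by linarith)
    have k4 := Nat.lt_floor_add_one X
    linarith
  have h5 : h * ‖PS b ⌊X⌋₊‖ ≤ 5 * K * X ^ 2 + (h + 1) * (W * h) := by
    have : h * ‖PS b ⌊X⌋₊‖ = ‖(h : ℂ) * PS b ⌊X⌋₊‖ := by
      rw [norm_mul, Complex.norm_real, Real.norm_of_nonneg h0.le]
    rw [this, e]
    refine (norm_sub_le _ _).trans ?_
    refine (add_le_add (norm_sub_le _ _) h3).trans ?_
    have : (X + h) ^ 2 ≤ 4 * X ^ 2 := by nlinarith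
    nlinarith
  have h6 : ‖PS b ⌊X⌋₊‖ ≤ (5 * K * X ^ 2 + (h + 1) * (W * h)) / h := by
    rw [le_div_iff₀ h0]
    linarith
  refine h6.trans (le_of_eq ?_)
  field_simp

/-- Abel summation -/
lemma abel {b : ℕ → ℂ} {g : ℕ → ℝ} {B : ℝ} {N1 N2 : ℕ} (h12 : N1 < N2)
    (hg : ∀ n, N1 + 1 ≤ n → g (n + 1) ≤ g n) (hg0 : ∀ n, N1 + 1 ≤ n → 0 ≤ g n)
    (hB : ∀ j, N1 ≤ j → j ≤ N2 → ‖PS b j‖ ≤ B) :
    ‖∑ n ∈ Finset.Ioc N1 N2, b n * (g n : ℂ)‖ ≤ 2 * B * g (N1 + 1) := by
  have claim : ∀ N, N1 + 1 ≤ N → N ≤ N2 →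
      ‖∑ n ∈ Finset.Ioc N1 N, b n * (g n : ℂ) - (g N : ℂ) * (PS b N - PS b N1)‖ ≤
        (g (N1 + 1) - g N) * (2 * B) := by
    intro N hN
    induction N, hN using Nat.le_induction with
    | base =>
      intro _
      rw [← Finset.insert_Ioc_right_eq_Ioc_add_one (le_refl N1), Finset.sum_insert (by simp), PS_succ]
      simp
      ring
    | succ N hN ih =>
      intro hN2
      have ih := ih (by omega)
      rw [← Finset.insert_Ioc_right_eq_Ioc_add_one (by omega : N1 ≤ N), Finset.sum_insert (by simp),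
        PS_succ]
      have e : b (N + 1) * (g (N + 1) : ℂ) + ∑ n ∈ Finset.Ioc N1 N, b n * (g n : ℂ) -
          (g (N + 1) : ℂ) * (PS b N + b (N + 1) - PS b N1) =
          (∑ n ∈ Finset.Ioc N1 N, b n * (g n : ℂ) - (g N : ℂ) * (PS b N - PS b N1)) +
            ((g N - g (N + 1) : ℝ) : ℂ) * (PS b N - PS b N1) := by
        push_cast
        ring
      rw [e]
      refine (norm_add_le _ _).trans ?_
      have k1 : ‖((g N - g (N + 1) : ℝ) : ℂ) * (PS b N - PS b N1)‖ ≤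
          (g N - g (N + 1)) * (2 * B) := by
        rw [norm_mul, Complex.norm_real, Real.norm_of_nonneg (by linarith [hg N hN])]
        apply mul_le_mul_of_nonneg_left _ (by linarith [hg N hN])
        refine (norm_sub_le _ _).trans ?_
        have := hB N (by omega) (by omega)
        have := hB N1 le_rfl (by omega)
        linarith
      linarith
  have h1 := claim N2 (by omega) le_rfl
  have h2 : ‖(g N2 : ℂ) * (PS b N2 - PS b N1)‖ ≤ g N2 * (2 * B) := by
    rw [norm_mul, Complex.norm_real, Real.norm_of_nonneg (hg0 N2 (by omega))]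
    apply mul_le_mul_of_nonneg_left _ (hg0 N2 (by omega))
    refine (norm_sub_le _ _).trans ?_
    have := hB N2 (by omega) le_rfl
    have := hB N1 le_rfl (by omega)
    linarith
  have h3 := norm_add_le (∑ n ∈ Finset.Ioc N1 N2, b n * (g n : ℂ) -
    (g N2 : ℂ) * (PS b N2 - PS b N1)) ((g N2 : ℂ) * (PS b N2 - PS b N1))
  rw [sub_add_cancel] at h3
  linarith

/-- the twisted coefficients -/
noncomputable def lk (a : ℕ → ℂ) (k : ℕ) (n : ℕ) : ℂ := a n * ((Real.log n : ℝ) : ℂ) ^ k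

lemma lk_bound {a : ℕ → ℂ} (ha : ∀ n : ℕ, 1 ≤ n → ‖a n‖ ≤ 1 + Real.log n) (k : ℕ) {n : ℕ}
    (hn : 1 ≤ n) : ‖lk a k n‖ ≤ (1 + Real.log n) ^ (k + 1) := by
  have h0 : 0 ≤ Real.log n := Real.log_nonneg (by exact_mod_cast hn)
  unfold lk
  rw [norm_mul, norm_pow, Complex.norm_real, Real.norm_of_nonneg h0, pow_succ']
  exact mul_le_mul (ha n hn) (pow_le_pow_left₀ h0 (by linarith) k) (by positivity) (by linarith)

lemma lk_summable {a : ℕ → ℂ} (ha : ∀ n : ℕ, 1 ≤ n → ‖a n‖ ≤ 1 + Real.log n) (k : ℕ) {c : ℝ}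
    (hc : 1 < c) : LSeriesSummable (lk a k) c := by
  apply LSeriesSummable_of_isBigO_rpow (x := (1 + c) / 2) (by simp; linarith)
  have h1 : (fun x : ℝ => Real.log x ^ ((k + 1 : ℕ) : ℝ)) =o[atTop] fun x => x ^ ((c - 1) / 2) :=
    isLittleO_log_rpow_rpow_atTop _ (by linarith)
  have h2 : (fun n : ℕ => (1 + Real.log (n : ℝ)) ^ (k + 1)) =O[atTop]
      fun n : ℕ => (n : ℝ) ^ ((c - 1) / 2) := by
    refine Asymptotics.IsBigO.trans ?_ (h1.isBigO.comp_tendsto tendsto_natCast_atTop_atTop)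
    rw [Asymptotics.isBigO_iff]
    refine ⟨2 ^ (k + 1), ?_⟩
    filter_upwards [eventually_ge_atTop 3] with n hn
    have hn' : (3 : ℝ) ≤ n := by exact_mod_cast hn
    have hl : 1 ≤ Real.log n := by
      rw [Real.le_log_iff_exp_le (by linarith)]
      linarith [Real.exp_one_lt_d9]
    rw [Real.norm_of_nonneg (by positivity), Function.comp_apply, Real.rpow_natCast,
      Real.norm_of_nonneg (by positivity), ← mul_pow]
    exact pow_le_pow_left₀ (by linarith) (by linarith) _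
  have h3 : (1 + c) / 2 - 1 = (c - 1) / 2 := by ring
  rw [h3]
  refine Asymptotics.IsBigO.trans ?_ h2
  rw [Asymptotics.isBigO_iff]
  refine ⟨1, ?_⟩
  filter_upwards [eventually_ge_atTop 1] with n hn
  have h0 : 0 ≤ Real.log n := Real.log_nonneg (by exact_mod_cast hn)
  rw [one_mul, Real.norm_of_nonneg (by positivity)]
  exact lk_bound ha k hn

/-- **Core**: bounds of the `k`-th derivative give a saving of `δ (k+1) / 2 - 1` logarithms. -/
theorem core (k m : ℕ) (δ C0 : ℝ) (hδ : 0 < δ) (hC0 : 0 ≤ C0) : ∃ C : ℝ, 0 < C ∧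
    ∀ a : ℕ → ℂ, (∀ n : ℕ, 1 ≤ n → ‖a n‖ ≤ 1 + Real.log n) → ∀ X : ℝ, 16 ≤ X →
    (∀ s : ℂ, 1 < s.re → s.re ≤ 2 → ‖LSeries (lk a k) s‖ ≤
      (C0 * Real.log X ^ ((1 - δ) * (k + 1))) * Real.log (|s.im| + 3) ^ m) →
    ‖PS a ⌊X⌋₊‖ ≤ C * X * Real.log X ^ (1 - δ * (k + 1) / 2) := by
  obtain ⟨C1, hC1, hsm⟩ := smooth_bound m
  set p : ℝ := δ * (k + 1) / 2 with hp
  have hp0 : 0 < p := by positivity
  obtain ⟨C2, hC2, hlog⟩ := log_pow_le ⌈p⌉₊
  set C3 : ℝ := 2 ^ (k + 1) * (5 * C1 * C0 + 3 ^ (k + 1)) with hC3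
  have hC3' : 0 < C3 := by positivity
  refine ⟨C3 + (2 * 6 ^ (k + 1) + 2) * C2, by positivity, ?_⟩
  intro a ha X hX hLS
  have hX0 : 0 < X := by linarith
  set L : ℝ := Real.log X with hL
  have hL1 : 1 ≤ L := by
    rw [hL, Real.le_log_iff_exp_le hX0]
    linarith [Real.exp_one_lt_d9]
  have hL0 : 0 < L := by linarith
  -- small terms
  have hsmall : Real.sqrt X ≤ C2 * X * L ^ (-p) := by
    have h1 : L ^ p ≤ C2 * X ^ (1 / 2 : ℝ) := by
      refine le_trans ?_ (hlog X (by linarith))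
      rw [← Real.rpow_natCast]
      exact Real.rpow_le_rpow_of_exponent_le hL1 (Nat.le_ceil p)
    rw [← Real.sqrt_eq_rpow] at h1
    rw [Real.rpow_neg hL0.le, ← div_eq_mul_inv, le_div_iff₀ (by positivity)]
    calc Real.sqrt X * L ^ p ≤ Real.sqrt X * (C2 * Real.sqrt X) :=
          mul_le_mul_of_nonneg_left h1 (Real.sqrt_nonneg X)
      _ = C2 * (Real.sqrt X * Real.sqrt X) := by ring
      _ = C2 * X := by rw [Real.mul_self_sqrt hX0.le]
  have hsplit : L ^ (1 - p) = L * L ^ (-p) := by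
    rw [sub_eq_add_neg, Real.rpow_add hL0, Real.rpow_one]
  set b := lk a k with hb
  set N1 := ⌊Real.sqrt X⌋₊ with hN1
  set N2 := ⌊X⌋₊ with hN2
  have hs4 : 4 ≤ Real.sqrt X := by
    exact Real.le_sqrt_of_sq_le (by norm_num; linarith)
  have hsX : Real.sqrt X * 4 ≤ X := by
    nlinarith [Real.mul_self_sqrt hX0.le]
  have hN1s : (N1 : ℝ) ≤ Real.sqrt X := Nat.floor_le (Real.sqrt_nonneg X)
  have hN1s' : Real.sqrt X < N1 + 1 := Nat.lt_floor_add_one _
  have hN1_4 : 4 ≤ N1 := Nat.le_floor (by exact_mod_cast hs4)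
  have h12 : N1 < N2 := by
    have h1 := Nat.lt_floor_add_one X
    have : (N1 : ℝ) < N2 := by
      rw [hN2]
      linarith
    exact_mod_cast this
  have hN2X : (N2 : ℝ) ≤ X := Nat.floor_le hX0.le
  have hlogs : Real.log (Real.sqrt X) = L / 2 := by
    rw [Real.log_sqrt hX0.le]
  -- bound for the partial sums of `b`
  set M : ℝ := C0 * L ^ ((1 - δ) * (k + 1)) with hM
  have hM0 : 0 ≤ M := by positivity
  set η : ℝ := L ^ (-p) with hη
  have hη0 : 0 < η := by positivity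
  have hη1 : η ≤ 1 := Real.rpow_le_one_of_one_le_of_nonpos hL1 (by linarith)
  set W : ℝ := (3 * L) ^ (k + 1) with hW
  have hW0 : 0 ≤ W := by positivity
  have hT : ∀ Z : ℝ, 2 ≤ Z → ‖TS b Z‖ ≤ (C1 * M) * Z ^ 2 := by
    intro Z hZ
    exact hsm b M hM0 (fun c hc => lk_summable ha k hc) hLS Z hZ
  have hPB : ∀ j, N1 ≤ j → j ≤ N2 → ‖PS b j‖ ≤ 5 * (C1 * M) * X / η + (η * X + 1) * W := by
    intro j hj1 hj2
    have hj4 : (4 : ℝ) ≤ j := by exact_mod_cast hN1_4.trans hj1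
    have hjX : (j : ℝ) ≤ X := le_trans (by exact_mod_cast hj2) hN2X
    have hj0 : (0 : ℝ) < j := by linarith
    have h1 := unsmooth (b := b) (K := C1 * M) (W := W) (X := (j : ℝ)) (h := η * j)
      (by linarith) (by positivity) (by nlinarith) hW0 (by positivity) (by
        intro n hn hnj
        refine (lk_bound ha k hn).trans ?_
        apply pow_le_pow_left₀
        · have := Real.log_nonneg (show (1 : ℝ) ≤ n by exact_mod_cast hn)
          linarith
        · have h2 : Real.log n ≤ Real.log (2 * X) := by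
            apply Real.log_le_log (by exact_mod_cast hn)
            linarith
          rw [Real.log_mul (by norm_num) (by linarith), ← hL] at h2
          have h3 : Real.log 2 < 1 := by linarith [Real.log_two_lt_d9]
          linarith)
      (hT j (by linarith)) (hT (j + η * j) (by nlinarith))
    rw [Nat.floor_natCast] at h1
    refine h1.trans ?_
    have e1 : 5 * (C1 * M) * (j : ℝ) ^ 2 / (η * j) = 5 * (C1 * M) * j / η := by
      field_simp
    rw [e1]
    apply add_le_add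
    · gcongr
    · gcongr
  -- Abel summation
  set g : ℕ → ℝ := fun n => (Real.log n ^ k)⁻¹ with hg
  have hlogpos : ∀ n : ℕ, N1 + 1 ≤ n → L / 2 ≤ Real.log n := by
    intro n hn
    rw [← hlogs]
    apply Real.log_le_log (by linarith)
    have : ((N1 + 1 : ℕ) : ℝ) ≤ n := by exact_mod_cast hn
    push_cast at this
    linarith
  have habel := abel (b := b) (g := g) h12 (by
      intro n hn
      have h1 := hlogpos n hn
      simp only [hg]
      apply inv_anti₀ (by have : 0 < Real.log n := by linarith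
                          positivity)
      apply pow_le_pow_left₀ (by linarith)
      apply Real.log_le_log
      · have : (0 : ℝ) < ((N1 + 1 : ℕ) : ℝ) := by positivity
        exact lt_of_lt_of_le this (by exact_mod_cast hn)
      · push_cast; linarith) (by
      intro n hn
      have h1 := hlogpos n hn
      have : 0 < Real.log n := by linarith
      simp only [hg]
      positivity) hPB
  have hsum : PS a N2 = PS a N1 + ∑ n ∈ Finset.Ioc N1 N2, b n * (g n : ℂ) := by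
    unfold PS
    rw [sum_Icc_split a h12.le]
    congr 1
    apply Finset.sum_congr rfl
    intro n hn
    rw [Finset.mem_Ioc] at hn
    have h1 := hlogpos n hn.1
    have h2 : ((Real.log n : ℝ) : ℂ) ^ k ≠ 0 := by
      apply pow_ne_zero
      exact_mod_cast (by linarith : Real.log (n : ℝ) ≠ 0)
    simp only [hb, lk, hg]
    rw [Complex.ofReal_inv, Complex.ofReal_pow, mul_assoc, mul_inv_cancel₀ h2, mul_one]
  have hfirst : ‖PS a N1‖ ≤ Real.sqrt X * (1 + L) := by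
    unfold PS
    have h1 : ∀ n ∈ Finset.Icc 1 N1, ‖a n‖ ≤ 1 + L := by
      intro n hn
      rw [Finset.mem_Icc] at hn
      refine (ha n hn.1).trans ?_
      have : Real.log n ≤ L := by
        rw [hL]
        apply Real.log_le_log (by exact_mod_cast hn.1)
        have : (n : ℝ) ≤ N1 := by exact_mod_cast hn.2
        linarith
      linarith
    refine (norm_sum_le_of_le _ h1).trans ?_
    rw [Finset.sum_const, Nat.card_Icc, nsmul_eq_mul]
    apply mul_le_mul_of_nonneg_right _ (by linarith)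
    simpa using hN1s
  have hgN : g (N1 + 1) ≤ 2 ^ k * (L ^ k)⁻¹ := by
    simp only [hg]
    have h1 := hlogpos (N1 + 1) le_rfl
    calc (Real.log ((N1 + 1 : ℕ) : ℝ) ^ k)⁻¹ ≤ ((L / 2) ^ k)⁻¹ := by
          apply inv_anti₀ (by positivity)
          exact pow_le_pow_left₀ (by linarith) h1 k
      _ = 2 ^ k * (L ^ k)⁻¹ := by
          rw [div_pow, inv_div, div_eq_mul_inv]
  have hBnn : 0 ≤ 5 * (C1 * M) * X / η + (η * X + 1) * W := by positivity
  -- collect
  have hmain : 2 * (5 * (C1 * M) * X / η + (η * X + 1) * W) * (2 ^ k * (L ^ k)⁻¹) ≤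
      C3 * X * L ^ (1 - p) + 2 * 6 ^ (k + 1) * L := by
    have e1 : M / η = C0 * L ^ (((k : ℝ) + 1) - p) := by
      rw [hM, hη, Real.rpow_neg hL0.le, div_inv_eq_mul, mul_assoc, ← Real.rpow_add hL0]
      congr 2
      rw [hp]
      ring
    have e2 : η * L ^ (k + 1) = L ^ (((k : ℝ) + 1) - p) := by
      rw [hη, ← Real.rpow_natCast, ← Real.rpow_add hL0]
      congr 1
      push_cast
      ring
    have e3 : L ^ (((k : ℝ) + 1) - p) * (L ^ k)⁻¹ = L ^ (1 - p) := by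
      rw [← Real.rpow_natCast L k, ← Real.rpow_neg hL0.le, ← Real.rpow_add hL0]
      congr 1
      ring
    have e4 : L ^ (k + 1) * (L ^ k)⁻¹ = L := by
      rw [pow_succ]
      field_simp
    have e5 : 2 * (5 * (C1 * M) * X / η + (η * X + 1) * W) * (2 ^ k * (L ^ k)⁻¹) =
        2 ^ (k + 1) * (5 * C1 * X * ((M / η) * (L ^ k)⁻¹) +
          3 ^ (k + 1) * X * ((η * L ^ (k + 1)) * (L ^ k)⁻¹) +
          3 ^ (k + 1) * (L ^ (k + 1) * (L ^ k)⁻¹)) := by
      rw [hW, mul_pow]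
      ring
    rw [e5, e1, e2, e4, mul_assoc C0, e3, hC3]
    have h6 : (2 : ℝ) ^ (k + 1) * 3 ^ (k + 1) = 6 ^ (k + 1) := by
      rw [← mul_pow]; norm_num
    have h7 : (0 : ℝ) < 6 ^ (k + 1) := by positivity
    nlinarith [mul_pos h7 hL0]
  have hfin := norm_add_le (PS a N1) (∑ n ∈ Finset.Ioc N1 N2, b n * (g n : ℂ))
  rw [← hsum] at hfin
  have hfin2 : ‖∑ n ∈ Finset.Ioc N1 N2, b n * (g n : ℂ)‖ ≤
      C3 * X * L ^ (1 - p) + 2 * 6 ^ (k + 1) * L := by
    refine habel.trans (le_trans ?_ hmain)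
    exact mul_le_mul_of_nonneg_left hgN (by positivity)
  have hLs : L ≤ Real.sqrt X * L := by nlinarith
  have h8 : Real.sqrt X * L ≤ C2 * X * L ^ (1 - p) := by
    rw [hsplit]
    calc Real.sqrt X * L ≤ (C2 * X * L ^ (-p)) * L := mul_le_mul_of_nonneg_right hsmall hL0.le
      _ = C2 * X * (L * L ^ (-p)) := by ring
  have h9 : Real.sqrt X * (1 + L) ≤ 2 * (C2 * X * L ^ (1 - p)) := by
    have : Real.sqrt X * 1 ≤ Real.sqrt X * L := mul_le_mul_of_nonneg_left hL1 (Real.sqrt_nonneg X)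
    linarith
  have h10 : 2 * 6 ^ (k + 1) * L ≤ 2 * 6 ^ (k + 1) * (C2 * X * L ^ (1 - p)) := by
    apply mul_le_mul_of_nonneg_left _ (by positivity)
    linarith
  calc ‖PS a N2‖ ≤ Real.sqrt X * (1 + L) + (C3 * X * L ^ (1 - p) + 2 * 6 ^ (k + 1) * L) := by
        linarith
    _ ≤ 2 * (C2 * X * L ^ (1 - p)) + (C3 * X * L ^ (1 - p) +
        2 * 6 ^ (k + 1) * (C2 * X * L ^ (1 - p))) := by linarith
    _ = (C3 + (2 * 6 ^ (k + 1) + 2) * C2) * X * L ^ (1 - p) := by ring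

end Pool.Agent.SW
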