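import Pool.Agent.H6.Perron

/-!
# Smoothed Perron formula and its trivial bound
-/

open Complex LSeries Filter Topology MeasureTheory Set

namespace Pool.Agent.SW

open Pool.Agent.H6

/-- powers of the logarithm are dominated by the square root -/
lemma log_pow_le (m : ℕ) : ∃ C : ℝ, 0 < C ∧ ∀ u : ℝ, 1 ≤ u → Real.log u ^ m ≤ C * u ^ (1 / 2 : ℝ) := by
  refine ⟨(2 * (m + 1)) ^ m, by positivity, fun u hu => ?_⟩
  have hε : (0 : ℝ) < 1 / (2 * (m + 1)) := by positivity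
  have h1 := Real.log_le_rpow_div (by linarith : (0 : ℝ) ≤ u) hε
  have h0 : 0 ≤ Real.log u := Real.log_nonneg hu
  calc Real.log u ^ m ≤ (u ^ (1 / (2 * ((m : ℝ) + 1))) / (1 / (2 * (m + 1)))) ^ m :=
        pow_le_pow_left₀ h0 h1 m
    _ = (2 * (m + 1)) ^ m * (u ^ (1 / (2 * ((m : ℝ) + 1)))) ^ m := by
        rw [div_div_eq_mul_div, div_one, mul_pow, mul_comm]
    _ ≤ (2 * (m + 1)) ^ m * u ^ (1 / 2 : ℝ) := by
        apply mul_le_mul_of_nonneg_left _ (by positivity)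
        rw [← Real.rpow_natCast, ← Real.rpow_mul (by linarith)]
        apply Real.rpow_le_rpow_of_exponent_le hu
        rw [div_mul_eq_mul_div, one_mul, div_le_div_iff₀ (by positivity) (by norm_num)]
        linarith

lemma integrable_wt (m : ℕ) :
    Integrable fun y : ℝ => Real.log (|y| + 3) ^ m * (1 + y ^ 2)⁻¹ := by
  obtain ⟨C, hC, h⟩ := log_pow_le m
  have h1 : Integrable fun y : ℝ => ((1 : ℝ) + ‖y‖ ^ 2) ^ (-(3 / 2 : ℝ) / 2) :=
    integrable_rpow_neg_one_add_norm_sq (by simp; norm_num)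
  refine (h1.const_mul (2 * C)).mono' ?_ (Eventually.of_forall fun y => ?_)
  · apply Continuous.aestronglyMeasurable
    apply Continuous.mul
    · apply Continuous.pow
      apply Continuous.log (by fun_prop)
      intro y
      positivity
    · apply Continuous.inv₀ (by fun_prop)
      intro y
      positivity
  · have hy0 : 0 ≤ |y| := abs_nonneg y
    have hpos : (0 : ℝ) < 1 + y ^ 2 := by positivity
    rw [Real.norm_of_nonneg (mul_nonneg (pow_nonneg (Real.log_nonneg (by linarith)) _)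
      (by positivity))]
    have h2 := h (|y| + 3) (by linarith)
    have h3 : (|y| + 3) ^ (1 / 2 : ℝ) ≤ 2 * (1 + y ^ 2) ^ (1 / 4 : ℝ) := by
      have h4 : |y| + 3 ≤ 4 * (1 + y ^ 2) ^ (1 / 2 : ℝ) := by
        rw [← Real.sqrt_eq_rpow, ← sub_nonneg]
        have h5 : Real.sqrt (1 + y ^ 2) ^ 2 = 1 + y ^ 2 := Real.sq_sqrt hpos.le
        have h6 := Real.sqrt_nonneg (1 + y ^ 2)
        have h7 : y ^ 2 = |y| ^ 2 := (sq_abs y).symm
        have h8 : |y| + 3 ≤ 4 * Real.sqrt (1 + y ^ 2) := by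
          apply le_of_sq_le_sq _ (by positivity)
          rw [mul_pow, h5, h7]
          nlinarith [sq_nonneg (|y| - 1)]
        linarith
      calc (|y| + 3) ^ (1 / 2 : ℝ) ≤ (4 * (1 + y ^ 2) ^ (1 / 2 : ℝ)) ^ (1 / 2 : ℝ) :=
            Real.rpow_le_rpow (by linarith) h4 (by norm_num)
        _ = 2 * (1 + y ^ 2) ^ (1 / 4 : ℝ) := by
            rw [Real.mul_rpow (by norm_num) (by positivity), ← Real.rpow_mul hpos.le]
            norm_num
    have h9 : (1 + y ^ 2) ^ (1 / 4 : ℝ) * (1 + y ^ 2)⁻¹ = (1 + ‖y‖ ^ 2) ^ (-(3 / 2 : ℝ) / 2) := by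
      rw [Real.norm_eq_abs, sq_abs, ← Real.rpow_neg_one, ← Real.rpow_add hpos]
      norm_num
    calc Real.log (|y| + 3) ^ m * (1 + y ^ 2)⁻¹
        ≤ (C * (2 * (1 + y ^ 2) ^ (1 / 4 : ℝ))) * (1 + y ^ 2)⁻¹ := by
          apply mul_le_mul_of_nonneg_right _ (by positivity)
          exact h2.trans (mul_le_mul_of_nonneg_left h3 hC.le)
      _ = 2 * C * (1 + ‖y‖ ^ 2) ^ (-(3 / 2 : ℝ) / 2) := by
          rw [← h9]; ring

/-- the smooth Perron kernel -/
noncomputable def sk (X : ℝ) (s : ℂ) : ℂ := (X : ℂ) ^ (s + 1) / (s * (s + 1))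

/-- **smoothed Perron formula** -/
theorem smooth_perron {a : ℕ → ℂ} {c : ℝ} (hc : 0 < c) (ha : LSeriesSummable a c) {X : ℝ}
    (hX : 0 < X) :
    ∑ n ∈ Finset.Icc 1 ⌊X⌋₊, a n * ((X - n : ℝ) : ℂ) = (1 / (2 * Real.pi) : ℂ) *
      ∫ y : ℝ, sk X ((c : ℂ) + y * I) * LSeries a ((c : ℂ) + y * I) := by
  have hkint : Integrable fun y : ℝ ↦ sk X ((c : ℂ) + y * I) := by
    have i1 := integrable_kern_part hc hX 1
    refine i1.congr (Eventually.of_forall fun y ↦ ?_)
    simp only [sk]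
    push_cast
    rw [one_cpow]
    ring
  set F : ℕ → ℝ → ℂ := fun n y ↦ sk X ((c : ℂ) + y * I) * term a ((c : ℂ) + y * I) n with hF
  have hFeq : ∀ n, n ≠ 0 → F n = fun y : ℝ ↦ a n * (sk X ((c : ℂ) + y * I) *
      (n : ℂ) ^ (-((c : ℂ) + y * I))) := by
    intro n hn
    ext y
    simp only [hF]
    rw [term_of_ne_zero hn, cpow_neg, div_eq_mul_inv]
    ring
  have hF0 : F 0 = fun _ ↦ 0 := by
    ext y; simp [hF]
  have hFn : ∀ n y, ‖F n y‖ = ‖sk X ((c : ℂ) + y * I)‖ * ‖term a (c : ℂ) n‖ := by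
    intro n y
    simp only [hF]
    rw [norm_mul, norm_term_eq, norm_term_eq]
    simp
  have hFint : ∀ n, Integrable (F n) := by
    intro n
    rcases eq_or_ne n 0 with rfl | hn
    · rw [hF0]; exact integrable_zero _ _ _
    · rw [hFeq n hn]
      have i1 := (integrable_kern_part hc hX n)
      refine (i1.const_mul (a n)).congr (Eventually.of_forall fun y ↦ ?_)
      simp only [sk]
  have hFsum : Summable fun n ↦ ∫ y, ‖F n y‖ := by
    have : (fun n ↦ ∫ y, ‖F n y‖)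
        = fun n ↦ (∫ y : ℝ, ‖sk X ((c : ℂ) + y * I)‖) * ‖term a (c : ℂ) n‖ := by
      ext n
      simp_rw [hFn n]
      rw [integral_mul_const]
    rw [this]
    exact ha.norm.mul_left _
  have key := hasSum_integral_of_summable_integral_norm hFint hFsum
  have hRHS : ∫ y : ℝ, sk X ((c : ℂ) + y * I) * LSeries a ((c : ℂ) + y * I)
      = ∫ y, ∑' n, F n y := by
    refine integral_congr_ae (Eventually.of_forall fun y ↦ ?_)
    simp only [hF]
    rw [tsum_mul_left, LSeries]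
  rw [hRHS, ← key.tsum_eq, ← tsum_mul_left]
  have hval : ∀ n, (1 / (2 * Real.pi) : ℂ) * ∫ y, F n y
      = if n ∈ Finset.Icc 1 ⌊X⌋₊ then a n * ((X - n : ℝ) : ℂ) else 0 := by
    intro n
    rcases eq_or_ne n 0 with rfl | hn
    · rw [hF0]; simp
    · rw [hFeq n hn, integral_const_mul, ← mul_assoc, mul_comm _ (a n), mul_assoc]
      have := tri_inversion hc hX hn
      simp only [sk]
      rw [← this]
      have hmem : n ∈ Finset.Icc 1 ⌊X⌋₊ ↔ (n : ℝ) ≤ X := by
        rw [Finset.mem_Icc, Nat.le_floor_iff hX.le]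
        constructor
        · exact fun h ↦ h.2
        · exact fun h ↦ ⟨Nat.one_le_iff_ne_zero.mpr hn, h⟩
      split_ifs with h
      · rw [hmem] at h
        rw [max_eq_left (by linarith)]
      · rw [hmem] at h
        rw [max_eq_right (by linarith)]
        simp
  simp_rw [hval]
  rw [tsum_eq_sum (s := Finset.Icc 1 ⌊X⌋₊) (fun n hn ↦ by simp [hn])]
  refine Finset.sum_congr rfl fun n hn ↦ ?_
  rw [if_pos hn]

lemma sk_bound {c X : ℝ} (hc : 1 ≤ c) (hX : 0 < X) (y : ℝ) :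
    ‖sk X ((c : ℂ) + y * I)‖ ≤ X ^ (c + 1) * (1 + y ^ 2)⁻¹ := by
  unfold sk
  rw [norm_div, norm_mul, norm_cpow_eq_rpow_re_of_pos hX]
  have h4 : ((c : ℂ) + y * I + 1).re = c + 1 := by simp
  rw [h4, div_eq_mul_inv]
  apply mul_le_mul_of_nonneg_left _ (by positivity)
  have h7 : c ^ 2 + y ^ 2 = ‖(c : ℂ) + y * I‖ ^ 2 := by
    rw [← normSq_eq_norm_sq, normSq_apply]
    simp
    ring
  have h6 : ‖(c : ℂ) + y * I‖ ≤ ‖(c : ℂ) + y * I + 1‖ := by
    rw [← sq_le_sq₀ (norm_nonneg _) (norm_nonneg _), ← normSq_eq_norm_sq, ← normSq_eq_norm_sq,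
      normSq_apply, normSq_apply]
    simp
    nlinarith
  apply inv_anti₀ (by positivity)
  calc 1 + y ^ 2 ≤ ‖(c : ℂ) + y * I‖ ^ 2 := by rw [← h7]; nlinarith
    _ = ‖(c : ℂ) + y * I‖ * ‖(c : ℂ) + y * I‖ := sq _
    _ ≤ ‖(c : ℂ) + y * I‖ * ‖(c : ℂ) + y * I + 1‖ :=
        mul_le_mul_of_nonneg_left h6 (norm_nonneg _)

/-- the smoothed sum is `≪ M X²` if the Dirichlet series is bounded by `M log^m` to the right of
the line `Re s = 1` -/
theorem smooth_bound (m : ℕ) : ∃ C : ℝ, 0 < C ∧ ∀ (b : ℕ → ℂ) (M : ℝ), 0 ≤ M →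
    (∀ c : ℝ, 1 < c → LSeriesSummable b c) →
    (∀ s : ℂ, 1 < s.re → s.re ≤ 2 → ‖LSeries b s‖ ≤ M * Real.log (|s.im| + 3) ^ m) →
    ∀ X : ℝ, 2 ≤ X → ‖∑ n ∈ Finset.Icc 1 ⌊X⌋₊, b n * ((X - n : ℝ) : ℂ)‖ ≤ C * M * X ^ 2 := by
  have hI := integrable_wt m
  set J : ℝ := ∫ y : ℝ, Real.log (|y| + 3) ^ m * (1 + y ^ 2)⁻¹ with hJ
  have hJ0 : 0 ≤ J := by
    apply integral_nonneg
    intro y
    have : 0 ≤ |y| := abs_nonneg y
    exact mul_nonneg (pow_nonneg (Real.log_nonneg (by linarith)) _) (by positivity)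
  refine ⟨Real.exp 1 * (J + 1), by positivity, ?_⟩
  intro b M hM hb hL X hX
  have hX0 : 0 < X := by linarith
  have hl1 : 1 ≤ Real.log (X + 1) := by
    rw [Real.le_log_iff_exp_le (by linarith)]
    linarith [Real.exp_one_lt_d9]
  set c : ℝ := 1 + 1 / Real.log (X + 1) with hcdef
  have hc1 : 1 < c := by
    have : 0 < 1 / Real.log (X + 1) := by positivity
    linarith
  have hc2 : c ≤ 2 := by
    have : 1 / Real.log (X + 1) ≤ 1 := by
      rw [div_le_one (by linarith)]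
      exact hl1
    linarith
  rw [smooth_perron (by linarith : 0 < c) (hb c hc1) hX0, norm_mul]
  have hpi : ‖(1 / (2 * Real.pi) : ℂ)‖ ≤ 1 := by
    rw [norm_div, norm_one, norm_mul, Complex.norm_real, Real.norm_of_nonneg Real.pi_pos.le]
    rw [div_le_one (by have := Real.pi_pos; simp; positivity)]
    have := Real.pi_gt_three
    simp
    linarith
  have hint : ‖∫ y : ℝ, sk X ((c : ℂ) + y * I) * LSeries b ((c : ℂ) + y * I)‖ ≤
      X ^ (c + 1) * M * J := by
    rw [hJ, ← integral_const_mul]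
    apply norm_integral_le_of_norm_le (hI.const_mul _)
    refine Eventually.of_forall fun y => ?_
    rw [norm_mul]
    have h1 := sk_bound hc1.le hX0 y
    have h2 := hL ((c : ℂ) + y * I) (by simpa using hc1) (by simpa using hc2)
    have h3 : ((c : ℂ) + y * I).im = y := by simp
    rw [h3] at h2
    calc ‖sk X ((c : ℂ) + y * I)‖ * ‖LSeries b ((c : ℂ) + y * I)‖
        ≤ (X ^ (c + 1) * (1 + y ^ 2)⁻¹) * (M * Real.log (|y| + 3) ^ m) :=
          mul_le_mul h1 h2 (norm_nonneg _) (by positivity)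
      _ = X ^ (c + 1) * M * (Real.log (|y| + 3) ^ m * (1 + y ^ 2)⁻¹) := by ring
  have hpow : X ^ (c + 1) ≤ X ^ 2 * Real.exp 1 := by
    have : c + 1 = 2 + 1 / Real.log (X + 1) := by rw [hcdef]; ring
    rw [this, Real.rpow_add hX0, Real.rpow_two]
    apply mul_le_mul_of_nonneg_left _ (by positivity)
    calc X ^ (1 / Real.log (X + 1)) ≤ (X + 1) ^ (1 / Real.log (X + 1)) :=
          Real.rpow_le_rpow hX0.le (by linarith) (by positivity)
      _ = Real.exp 1 := by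
          rw [Real.rpow_def_of_pos (by linarith)]
          congr 1
          field_simp
  calc ‖(1 / (2 * Real.pi) : ℂ)‖ * ‖∫ y : ℝ, sk X ((c : ℂ) + y * I) * LSeries b ((c : ℂ) + y * I)‖
      ≤ 1 * (X ^ (c + 1) * M * J) := mul_le_mul hpi hint (norm_nonneg _) (by norm_num)
    _ ≤ (X ^ 2 * Real.exp 1) * M * (J + 1) := by
        rw [one_mul]
        have h1 : X ^ (c + 1) * M ≤ (X ^ 2 * Real.exp 1) * M := mul_le_mul_of_nonneg_right hpow hM
        exact mul_le_mul h1 (by linarith) hJ0 (by positivity)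
    _ = Real.exp 1 * (J + 1) * M * X ^ 2 := by ring

end Pool.Agent.SW
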